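import Pool.Agent.H99.KR.Main

namespace Pool.Agent.Results.MP_53afc0_co.PartitionTheorem

open Finset

/-- In the edge colouring `c` of the complete graph on `N` vertices, the edges of some colour `j`
inside `S` contain a spanning copy of the member of the family with `|S|` vertices. -/
def HasMonoCopy {k N : ℕ} (F : (r : ℕ) → SimpleGraph (Fin r)) (c : Sym2 (Fin N) → Fin k)
    (S : Finset (Fin N)) : Prop :=
  ∃ (j : Fin k) (e : Fin S.card ≃ S), ∀ a b, (F S.card).Adj a b → c s(↑(e a), ↑(e b)) = j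

theorem result : ∀ k : ℕ, ∃ C : ℕ, ∀ (Δ : ℕ) (F : (r : ℕ) → SimpleGraph (Fin r)), 1 ≤ Δ →
    (∀ r v, ((F r).neighborSet v).ncard ≤ Δ) → ∀ (N : ℕ) (c : Sym2 (Fin N) → Fin k),
      ∃ P : Finpartition (univ : Finset (Fin N)),
        P.parts.card ≤ 2 ^ (C * Δ) ∧ ∀ S ∈ P.parts, HasMonoCopy F c S := by
  intro k
  obtain ⟨C, hC⟩ := Pool.Agent.H99.KR.partition_main k
  refine ⟨C, fun Δ F hΔ hdeg N c => ?_⟩
  obtain ⟨P, hP1, hP2⟩ := hC Δ F hΔ hdeg N c
  exact ⟨P, hP1, hP2⟩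

end Pool.Agent.Results.MP_53afc0_co.PartitionTheorem
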